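import Mathlib
import Pool.Graph.R_pool_sql_team_seeded_1acbe0a2.Results.MP_77d073_nt.ContinuumMany

/-! # Products of linear forms composed with rational matrices -/

set_option autoImplicit false

open H715R2 Matrix

namespace Pool.Agent.Helper86.Opp

open MvPolynomial in
/-- A polynomial with integral coefficients. -/
lemma exists_int_poly {n : ℕ} {P : MvPolynomial (Fin n) ℝ}
    (h : ∀ m : Fin n →₀ ℕ, ∃ z : ℤ, coeff m P = (z : ℝ)) :
    ∃ Q : MvPolynomial (Fin n) ℚ, map (algebraMap ℚ ℝ) Q = P := by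
  classical
  choose z hz using h
  refine ⟨∑ m ∈ P.support, monomial m (z m : ℚ), ?_⟩
  rw [map_sum]
  conv_rhs => rw [P.as_sum]
  refine Finset.sum_congr rfl fun m _ => ?_
  rw [map_monomial, hz m]
  simp

open MvPolynomial in
/-- Composing with a rational matrix keeps proportionality to an integral form. -/
lemma propInt_mul {n : ℕ} {g h : Matrix (Fin n) (Fin n) ℝ} (γ : Matrix (Fin n) (Fin n) ℚ)
    (hh : h = g * γ.map (fun q : ℚ => (q : ℝ))) (hg : PropInt g) : PropInt h := by
  classical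
  obtain ⟨c, hc, H⟩ := hg
  obtain ⟨P, hP⟩ := exists_int_poly H
  set Q : MvPolynomial (Fin n) ℚ := bind₁ (fun j => ∑ k, C (γ j k) * X k) P with hQ
  obtain ⟨N, hN, hNQ⟩ := exists_common_den Q
  have hpoly : polyF h = bind₁ (fun j => ∑ k, C ((γ j k : ℚ) : ℝ) * X k) (polyF g) := by
    unfold polyF
    rw [map_prod]
    refine Finset.prod_congr rfl fun i _ => ?_
    rw [map_sum]
    simp only [map_mul, bind₁_X_right, algHom_C, algebraMap_eq]
    simp only [hh, Matrix.mul_apply, Matrix.map_apply, map_sum, map_mul, Finset.sum_mul,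
      Finset.mul_sum]
    rw [Finset.sum_comm]
    refine Finset.sum_congr rfl fun k _ => Finset.sum_congr rfl fun l _ => ?_
    ring
  have h1 : map (algebraMap ℚ ℝ) Q = c • polyF h := by
    rw [hQ, hpoly, ← map_smul, ← hP]
    rw [map_bind₁]
    congr 2
    funext j
    simp
  refine ⟨N * c, mul_ne_zero (by exact_mod_cast hN) hc, fun m => ?_⟩
  obtain ⟨z, hz⟩ := hNQ m
  refine ⟨z, ?_⟩
  have h2 : coeff m (c • polyF h) = ((coeff m Q : ℚ) : ℝ) := by
    rw [← h1, coeff_map]; simp
  rw [mul_smul, coeff_smul, h2, smul_eq_mul]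
  have h3 := congrArg (fun q : ℚ => (q : ℝ)) hz
  simp only [Rat.cast_mul, Rat.cast_intCast] at h3
  exact h3

end Pool.Agent.Helper86.Opp
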