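import Mathlib
import Pool.Agent.Helper86.Opp.Inv

/-! # Counterexamples to Oppenheim's conjecture near a given system of forms -/

set_option autoImplicit false

open H715R2 Matrix
open Pool.Agent.Results.MP_77d073_nt.ContinuumMany

namespace Pool.Agent.Helper86.Opp

variable {n : ℕ}

/-- the forms `L i` composed with the matrix `M / N` -/
noncomputable def comp (L : Fin n → Fin n → ℝ) (M : Matrix (Fin n) (Fin n) ℤ) (N : ℕ) :
    Fin n → Fin n → ℝ :=
  fun i j => (∑ k, L i k * (M k j : ℝ)) / N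

/-- the rational matrix `M / N` -/
def rat (M : Matrix (Fin n) (Fin n) ℤ) (N : ℕ) : Matrix (Fin n) (Fin n) ℚ :=
  fun i j => (M i j : ℚ) / N

lemma comp_eq (L : Fin n → Fin n → ℝ) (M : Matrix (Fin n) (Fin n) ℤ) (N : ℕ) :
    Matrix.of (comp L M N) = Matrix.of L * (rat M N).map (fun q : ℚ => (q : ℝ)) := by
  ext i j
  simp only [Matrix.of_apply, comp, Matrix.mul_apply, Matrix.map_apply, rat, Finset.sum_div]
  refine Finset.sum_congr rfl fun k _ => ?_
  push_cast
  ring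

lemma rat_det (M : Matrix (Fin n) (Fin n) ℤ) {N : ℕ} (hN : 0 < N) (hM : M.det ≠ 0) :
    (rat M N).det ≠ 0 := by
  have h : rat M N = (N : ℚ)⁻¹ • M.map (Int.castRingHom ℚ) := by
    ext i j
    simp only [rat, Matrix.smul_apply, Matrix.map_apply, smul_eq_mul, eq_intCast]
    ring
  rw [h, Matrix.det_smul]
  have h2 : (M.map (Int.castRingHom ℚ)).det = (M.det : ℚ) := by
    rw [← RingHom.mapMatrix_apply, ← RingHom.map_det]; rfl
  rw [h2]
  refine mul_ne_zero (pow_ne_zero _ (inv_ne_zero (by exact_mod_cast hN.ne'))) ?_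
  exact_mod_cast hM

lemma mapR_det {γ : Matrix (Fin n) (Fin n) ℚ} :
    (γ.map (fun q : ℚ => (q : ℝ))).det = ((γ.det : ℚ) : ℝ) := by
  have h : γ.map (fun q : ℚ => (q : ℝ)) = γ.map (Rat.castHom ℝ) := rfl
  rw [h, ← RingHom.mapMatrix_apply, ← RingHom.map_det]; rfl

lemma mapR_inv {γ : Matrix (Fin n) (Fin n) ℚ} (h : γ.det ≠ 0) :
    γ.map (fun q : ℚ => (q : ℝ)) * (γ⁻¹).map (fun q : ℚ => (q : ℝ)) = 1 := by
  have h1 : ∀ δ : Matrix (Fin n) (Fin n) ℚ, δ.map (fun q : ℚ => (q : ℝ)) =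
      (Rat.castHom ℝ).mapMatrix δ := fun δ => rfl
  rw [h1, h1, ← map_mul, Matrix.mul_nonsing_inv _ (isUnit_iff_ne_zero.mpr h), map_one]

lemma det_comp_ne (L : Fin n → Fin n → ℝ) (hL : (Matrix.of L).det ≠ 0)
    (M : Matrix (Fin n) (Fin n) ℤ) {N : ℕ} (hN : 0 < N) (hM : M.det ≠ 0) :
    (Matrix.of (comp L M N)).det ≠ 0 := by
  rw [comp_eq, Matrix.det_mul, mapR_det]
  exact mul_ne_zero hL (by exact_mod_cast rat_det M hN hM)

lemma F_comp (L : Fin n → Fin n → ℝ) (M : Matrix (Fin n) (Fin n) ℤ) (N : ℕ) (p : Fin n → ℤ) :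
    F (comp L M N) (fun j => (p j : ℝ)) = F L (fun j => ((M.mulVec p) j : ℝ)) / (N : ℝ) ^ n := by
  unfold F
  have h : ∀ i, ∑ j, comp L M N i j * (p j : ℝ) = (∑ j, L i j * ((M.mulVec p) j : ℝ)) / N := by
    intro i
    simp only [comp, Matrix.mulVec, dotProduct]
    push_cast
    simp only [Finset.mul_sum, Finset.sum_div, Finset.sum_mul]
    rw [Finset.sum_comm]
    refine Finset.sum_congr rfl fun k _ => Finset.sum_congr rfl fun l _ => ?_
    ring
  rw [Finset.prod_congr rfl fun i _ => h i, Finset.prod_div_distrib, Finset.prod_const,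
    Finset.card_univ, Fintype.card_fin]

lemma atLeast_comp {L : Fin n → Fin n → ℝ} {ν : ℝ} (h : AtLeast L ν)
    (M : Matrix (Fin n) (Fin n) ℤ) {N : ℕ} (hN : 0 < N) (hM : M.det ≠ 0) :
    AtLeast (comp L M N) (ν / (N : ℝ) ^ n) := by
  intro p hp
  have hN' : (0 : ℝ) < (N : ℝ) ^ n := by positivity
  rw [F_comp, abs_div, abs_of_pos hN']
  have h0 : M.mulVec p ≠ 0 := by
    intro h1
    exact hM (Matrix.exists_mulVec_eq_zero_iff.mp ⟨p, hp, h1⟩)
  exact div_le_div_of_nonneg_right (h _ h0) hN'.le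

lemma equivalent_comp (L : Fin n → Fin n → ℝ) (M : Matrix (Fin n) (Fin n) ℤ) {N : ℕ}
    (hN : 0 < N) : Equivalent (comp L M N) L := by
  refine ⟨1, rat M N, fun p => ?_⟩
  rw [F_comp, one_mul]
  unfold F
  rw [eq_comm, eq_div_iff (by positivity)]
  have h : (N : ℝ) ^ n = ∏ _i : Fin n, (N : ℝ) := by
    rw [Finset.prod_const, Finset.card_univ, Fintype.card_fin]
  rw [h, ← Finset.prod_mul_distrib]
  refine Finset.prod_congr rfl fun i _ => ?_
  rw [Finset.sum_mul]
  refine Finset.sum_congr rfl fun j _ => ?_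
  simp only [rat, Matrix.mulVec, dotProduct]
  push_cast
  rw [mul_assoc, Finset.sum_mul]
  congr 1
  refine Finset.sum_congr rfl fun k _ => ?_
  have : (N : ℝ) ≠ 0 := by positivity
  field_simp

lemma hasMatrix_of_comp (hn : 3 ≤ n) {L : Fin n → Fin n → ℝ} (hL : LinearIndependent ℝ L)
    {ν : ℝ} (hν : 0 < ν) (h : AtLeast L ν) (M : Matrix (Fin n) (Fin n) ℤ) {N : ℕ} (hN : 0 < N)
    (hM : M.det ≠ 0) (hA : HasMatrix (comp L M N)) : HasMatrix L := by
  have hdet := Pool.Agent.H905R2.Opp.det_ne hL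
  obtain ⟨A, -, hA1, -, hA2⟩ := hA
  have h1 : PropInt (Matrix.of (comp L M N)) :=
    Y327.propInt_of_opp hn (det_comp_ne L hdet M hN hM)
      (div_pos hν (pow_pos (Nat.cast_pos.mpr hN) n)) (atLeast_comp h M hN hM) hA1 hA2
  have h2 : PropInt (Matrix.of L) := by
    apply propInt_mul (rat M N)⁻¹ _ h1
    rw [comp_eq, Matrix.mul_assoc, mapR_inv (rat_det M hN hM), Matrix.mul_one]
  exact Pool.Agent.H905R2.Opp.opp_of_propInt (by omega) hL ⟨ν, hν, h⟩ h2

lemma counterexample_comp (hn : 3 ≤ n) {L : Fin n → Fin n → ℝ} {ν : ℝ} (hν : 0 < ν)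
    (h : Counterexample L ν) (M : Matrix (Fin n) (Fin n) ℤ) {N : ℕ} (hN : 0 < N)
    (hM : M.det ≠ 0) : Counterexample (comp L M N) (ν / (N : ℝ) ^ n) := by
  obtain ⟨h1, h2, h3⟩ := h
  exact ⟨indep_of_det (det_comp_ne L (Pool.Agent.H905R2.Opp.det_ne h1) M hN hM),
    atLeast_comp h2 M hN hM, fun h4 => h3 (hasMatrix_of_comp hn h1 hν h2 M hN hM h4)⟩

/-- Approximation by rational matrices. -/
lemma approx {L L₀ : Fin n → Fin n → ℝ} (hL : LinearIndependent ℝ L)
    (hL₀ : LinearIndependent ℝ L₀) : ∃ K : ℝ, 0 < K ∧ ∀ δ : ℝ, 0 < δ → δ ≤ 1 →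
    ∃ (M : Matrix (Fin n) (Fin n) ℤ) (N : ℕ), 0 < N ∧ M.det ≠ 0 ∧ (N : ℝ) ≤ K / δ ∧
      ∀ i j, |comp L M N i j - L₀ i j| ≤ δ := by
  have hdet := Pool.Agent.H905R2.Opp.det_ne hL
  have hdet₀ := Pool.Agent.H905R2.Opp.det_ne hL₀
  set X : Matrix (Fin n) (Fin n) ℝ := (Matrix.of L)⁻¹ * Matrix.of L₀ with hX
  have hLX : Matrix.of L * X = Matrix.of L₀ := by
    rw [hX, ← Matrix.mul_assoc, Matrix.mul_nonsing_inv _ (isUnit_iff_ne_zero.mpr hdet),
      Matrix.one_mul]
  -- a neighbourhood of `L₀` of invertible matrices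
  have hcont : Continuous fun A : Fin n → Fin n → ℝ => (Matrix.of A).det := by
    exact Continuous.matrix_det continuous_id
  have hopen : IsOpen {A : Fin n → Fin n → ℝ | (Matrix.of A).det ≠ 0} :=
    isOpen_ne.preimage hcont
  obtain ⟨ε, hε, hball⟩ := Metric.isOpen_iff.mp hopen L₀ hdet₀
  obtain ⟨B, hB0, hB⟩ : ∃ B : ℝ, 0 < B ∧ ∀ i, ∑ k, |L i k| ≤ B := by
    refine ⟨∑ i, ∑ k, |L i k| + 1, by positivity, fun i => ?_⟩
    have := Finset.single_le_sum (f := fun i => ∑ k, |L i k|)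
      (fun i _ => Finset.sum_nonneg fun k _ => abs_nonneg _) (Finset.mem_univ i)
    linarith
  refine ⟨B + 2 * B / ε + 1, by positivity, fun δ hδ hδ1 => ?_⟩
  set N : ℕ := ⌈(B + 2 * B / ε) / δ⌉₊ with hNdef
  have hN1 : (B + 2 * B / ε) / δ ≤ N := Nat.le_ceil _
  have hpos : 0 < (B + 2 * B / ε) / δ := by positivity
  have hN : 0 < N := Nat.ceil_pos.mpr hpos
  have hN' : (0 : ℝ) < N := by exact_mod_cast hN
  have hNle : (N : ℝ) ≤ (B + 2 * B / ε + 1) / δ := by
    have h1 := (Nat.ceil_lt_add_one hpos.le).le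
    have h2 : (1 : ℝ) ≤ 1 / δ := by rw [le_div_iff₀ hδ]; linarith
    rw [add_div (B + 2 * B / ε) 1 δ]
    linarith
  set M : Matrix (Fin n) (Fin n) ℤ := fun i j => round ((N : ℝ) * X i j) with hM
  have hround : ∀ i j, |(M i j : ℝ) / N - X i j| ≤ 1 / N := by
    intro i j
    have h1 := abs_sub_round ((N : ℝ) * X i j)
    have h2 : (M i j : ℝ) / N - X i j = -((N : ℝ) * X i j - round ((N : ℝ) * X i j)) / N := by
      field_simp
      simp only [hM]
      ring
    rw [h2, abs_div, abs_neg, abs_of_pos hN']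
    exact div_le_div_of_nonneg_right (by linarith) hN'.le
  have happ : ∀ i j, |comp L M N i j - L₀ i j| ≤ B / N := by
    intro i j
    have h1 : L₀ i j = ∑ k, L i k * X k j := by
      have := congrFun (congrFun hLX i) j
      simp only [Matrix.mul_apply, Matrix.of_apply] at this
      exact this.symm
    have h2 : comp L M N i j - L₀ i j = ∑ k, L i k * ((M k j : ℝ) / N - X k j) := by
      rw [h1, comp, Finset.sum_div, ← Finset.sum_sub_distrib]
      refine Finset.sum_congr rfl fun k _ => ?_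
      ring
    rw [h2]
    calc |∑ k, L i k * ((M k j : ℝ) / N - X k j)|
        ≤ ∑ k, |L i k * ((M k j : ℝ) / N - X k j)| := Finset.abs_sum_le_sum_abs _ _
      _ ≤ ∑ k, |L i k| * (1 / N) := by
          refine Finset.sum_le_sum fun k _ => ?_
          rw [abs_mul]
          exact mul_le_mul_of_nonneg_left (hround k j) (abs_nonneg _)
      _ = (∑ k, |L i k|) / N := by rw [← Finset.sum_mul]; ring
      _ ≤ B / N := div_le_div_of_nonneg_right (hB i) hN'.le
  have hBN : B / N ≤ δ := by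
    rw [div_le_iff₀ hN']
    have h1 : B / δ ≤ N := by
      refine le_trans ?_ hN1
      apply div_le_div_of_nonneg_right _ hδ.le
      have : 0 ≤ 2 * B / ε := by positivity
      linarith
    rw [div_le_iff₀ hδ] at h1
    linarith
  have hBε : B / N < ε := by
    rw [div_lt_iff₀ hN']
    have h1 : 2 * B / ε ≤ N := by
      refine le_trans ?_ hN1
      rw [le_div_iff₀ hδ]
      have h2 : 0 ≤ 2 * B / ε := by positivity
      nlinarith
    rw [div_le_iff₀ hε] at h1
    nlinarith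
  refine ⟨M, N, hN, ?_, hNle, fun i j => (happ i j).trans hBN⟩
  intro hM0
  have hmem : comp L M N ∈ Metric.ball L₀ ε := by
    rw [Metric.mem_ball, dist_pi_lt_iff hε]
    intro i
    rw [dist_pi_lt_iff hε]
    intro j
    rw [Real.dist_eq]
    exact (happ i j).trans_lt hBε
  have h1 : (Matrix.of (comp L M N)).det ≠ 0 := hball hmem
  apply h1
  rw [comp_eq, Matrix.det_mul, mapR_det]
  have h2 : (rat M N).det = 0 := by
    have h : rat M N = (N : ℚ)⁻¹ • M.map (Int.castRingHom ℚ) := by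
      ext i j
      simp only [rat, Matrix.smul_apply, Matrix.map_apply, smul_eq_mul, eq_intCast]
      ring
    rw [h, Matrix.det_smul]
    have h2 : (M.map (Int.castRingHom ℚ)).det = (M.det : ℚ) := by
      rw [← RingHom.mapMatrix_apply, ← RingHom.map_det]; rfl
    rw [h2, hM0]
    simp
  rw [h2]
  simp

/-- One counterexample gives counterexamples near every system of forms. -/
theorem near (hn : 3 ≤ n) {L L₀ : Fin n → Fin n → ℝ} {ν : ℝ} (hν : 0 < ν)
    (h : Counterexample L ν) (hL₀ : LinearIndependent ℝ L₀) :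
    ∃ c : ℝ, 0 < c ∧ ∀ δ : ℝ, 0 < δ → δ ≤ 1 → ∃ L' : Fin n → Fin n → ℝ,
      (∀ i j, |L' i j - L₀ i j| ≤ δ) ∧ Counterexample L' (c * δ ^ n) ∧ Equivalent L' L := by
  obtain ⟨K, hK, H⟩ := approx h.1 hL₀
  refine ⟨ν / K ^ n, by positivity, fun δ hδ hδ1 => ?_⟩
  obtain ⟨M, N, hN, hM, hNK, happ⟩ := H δ hδ hδ1
  refine ⟨comp L M N, happ, ?_, equivalent_comp L M hN⟩
  obtain ⟨h1, h2, h3⟩ := counterexample_comp hn hν h M hN hM
  refine ⟨h1, fun p hp => le_trans ?_ (h2 p hp), h3⟩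
  have hN' : (0 : ℝ) < N := by exact_mod_cast hN
  rw [div_mul_eq_mul_div, div_le_div_iff₀ (by positivity) (by positivity), mul_assoc, ← mul_pow]
  have h4 : δ * N ≤ K := by rwa [le_div_iff₀ hδ, mul_comm] at hNK
  exact mul_le_mul_of_nonneg_left (pow_le_pow_left₀ (by positivity) h4 n) hν.le

end Pool.Agent.Helper86.Opp
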